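import Pool.Agent.V11122.Hv.Lin

/-! Two disjoint sets, every element deleted with probability `r`: the probability that `c` more
elements of the first than of the second set survive. -/

set_option autoImplicit false

namespace Pool.Agent.V11122.Hv

open Finset Polynomial Pool.Agent.Y344.KD Pool.Agent.H189R2.Lev Pool.Agent.H189R2.Iid

/-- the probability that exactly `c` more elements of a set of `s` elements survive than of a
disjoint set of `s'` elements -/
noncomputable def pc (c s s' : ℕ) (r : ℝ) : ℝ := ∑ a ∈ range (s' + 1), bb (a + c) s r * bb a s' r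

theorem joint_c {n : ℕ} (c : ℕ) {S S' : Finset (Fin n)} (hd : Disjoint S S') (r : ℝ) :
    ∑ D : Finset (Fin n), (if (S \ D).card = (S' \ D).card + c then wt r D else 0) =
      pc c S.card S'.card r := by
  have h1 := Fintype.prod_add (fun l : Fin n => (if l ∈ S' then C r * X else C r : ℝ[X]))
    (fun l => if l ∈ S then C (1 - r) * X else C (1 - r))
  have hdis : ∀ l, l ∈ S → l ∉ S' := fun l h h' => (disjoint_left.mp hd) h h'
  have h2 : ∏ l : Fin n, ((if l ∈ S' then C r * X else C r : ℝ[X]) +
      if l ∈ S then C (1 - r) * X else C (1 - r)) =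
      (C (1 - r) * X + C r) ^ S.card * (C (1 - (1 - r)) * X + C (1 - r)) ^ S'.card := by
    have : ∀ l : Fin n, ((if l ∈ S' then C r * X else C r : ℝ[X]) +
        if l ∈ S then C (1 - r) * X else C (1 - r)) =
        (if l ∈ S then (C (1 - r) * X + C r) else 1) *
          (if l ∈ S' then (C (1 - (1 - r)) * X + C (1 - r)) else 1) := by
      intro l
      have hr : (1 : ℝ) - (1 - r) = r := by ring
      rw [hr]
      by_cases hS : l ∈ S
      · rw [if_pos hS, if_neg (hdis l hS), if_pos hS, if_neg (hdis l hS)]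
        ring
      · rw [if_neg hS, if_neg hS, one_mul]
        by_cases hS' : l ∈ S'
        · rw [if_pos hS', if_pos hS']
        · rw [if_neg hS', if_neg hS', ← C_add]
          norm_num
    rw [prod_congr rfl (fun l _ => this l), prod_mul_distrib]
    simp only [prod_ite, prod_const, one_pow, mul_one]
    have f1 : (univ.filter (fun l : Fin n => l ∈ S)) = S := by
      ext l
      simp
    have f2 : (univ.filter (fun l : Fin n => l ∈ S')) = S' := by
      ext l
      simp
    rw [f1, f2]
  have h3 : ∀ D : Finset (Fin n), (∏ l ∈ D, (if l ∈ S' then C r * X else C r : ℝ[X])) *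
      ∏ l ∈ Dᶜ, (if l ∈ S then C (1 - r) * X else C (1 - r)) =
        C (wt r D) * X ^ ((D ∩ S').card + (S \ D).card) := by
    intro D
    have e1 : ∀ l : Fin n, (if l ∈ S then C (1 - r) * X else C (1 - r) : ℝ[X]) =
        C (1 - r) * (if l ∈ S then X else 1) := by
      intro l
      split_ifs <;> simp
    have e3 : ∀ l : Fin n, (if l ∈ S' then C r * X else C r : ℝ[X]) =
        C r * (if l ∈ S' then X else 1) := by
      intro l
      split_ifs <;> simp
    rw [prod_congr rfl (fun l _ => e1 l), prod_congr rfl (fun l _ => e3 l), prod_mul_distrib,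
      prod_mul_distrib]
    simp only [prod_ite, prod_const, one_pow, mul_one]
    have e2 : Dᶜ.filter (fun l => l ∈ S) = S \ D := by
      ext l
      simp only [mem_filter, mem_compl, mem_sdiff]
      tauto
    have e4 : D.filter (fun l => l ∈ S') = D ∩ S' := by
      ext l
      simp only [mem_filter, mem_inter]
    rw [e2, e4, card_compl, Fintype.card_fin]
    unfold wt
    rw [C_mul, C_pow, C_pow, pow_add]
    ring
  rw [h2] at h1
  simp only [h3] at h1
  have h4 := congrArg (fun p : ℝ[X] => p.coeff (c + S'.card)) h1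
  simp only [finsetSum_coeff, coeff_C_mul_X_pow] at h4
  rw [coeff_mul] at h4
  have h5 : ∀ D : Finset (Fin n), (if (S \ D).card = (S' \ D).card + c then wt r D else 0) =
      if c + S'.card = (D ∩ S').card + (S \ D).card then wt r D else 0 := by
    intro D
    have := card_sdiff_add_card_inter S' D
    rw [inter_comm] at this
    have hiff : (S \ D).card = (S' \ D).card + c ↔
        c + S'.card = (D ∩ S').card + (S \ D).card := by
      omega
    simp only [hiff]
  rw [sum_congr rfl (fun D _ => h5 D), ← h4, Nat.sum_antidiagonal_eq_sum_range_succ_mk]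
  unfold pc
  rw [Nat.succ_eq_add_one, add_assoc, sum_range_add]
  rw [sum_eq_zero, zero_add]
  · apply sum_congr rfl
    intro a ha
    rw [mem_range] at ha
    simp only
    have e : c + S'.card - (c + a) = S'.card - a := by omega
    rw [coefP, coefP, e, bb_swap (by omega), Nat.sub_sub_self (by omega), add_comm c a]
  · intro a ha
    rw [mem_range] at ha
    simp only
    rw [coefP, coefP, bb_zero (by omega : S'.card < c + S'.card - a), mul_zero]

theorem sum_bb_shift {r : ℝ} (h0 : 0 ≤ r) (h1 : r ≤ 1) (s m c : ℕ) :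
    ∑ a ∈ range m, bb (a + c) s r ≤ 1 := by
  have h := sum_bb_le h0 h1 s (c + m)
  rw [sum_range_add] at h
  have h2 : 0 ≤ ∑ x ∈ range c, bb x s r := sum_nonneg fun a _ => bb_nonneg a s h0 h1
  have h3 : ∑ a ∈ range m, bb (a + c) s r = ∑ a ∈ range m, bb (c + a) s r :=
    sum_congr rfl fun a _ => by rw [add_comm]
  rw [h3]
  linarith

theorem pc_nonneg {r : ℝ} (h0 : 0 ≤ r) (h1 : r ≤ 1) (c s s' : ℕ) : 0 ≤ pc c s s' r :=
  sum_nonneg fun a _ => mul_nonneg (bb_nonneg (a + c) s h0 h1) (bb_nonneg a s' h0 h1)

theorem pc_le_left {r M : ℝ} (h0 : 0 ≤ r) (h1 : r ≤ 1) {c s s' : ℕ} (hM : ∀ k, bb k s r ≤ M) :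
    pc c s s' r ≤ M := by
  calc pc c s s' r ≤ ∑ a ∈ range (s' + 1), M * bb a s' r :=
        sum_le_sum fun a _ => mul_le_mul_of_nonneg_right (hM (a + c)) (bb_nonneg a s' h0 h1)
    _ = M := by rw [← mul_sum, sum_bb, mul_one]

theorem pc_le_right {r M : ℝ} (h0 : 0 ≤ r) (h1 : r ≤ 1) {c s s' : ℕ} (hM : ∀ k, bb k s' r ≤ M) :
    pc c s s' r ≤ M := by
  have hM0 : 0 ≤ M := (bb_nonneg 0 s' h0 h1).trans (hM 0)
  calc pc c s s' r ≤ ∑ a ∈ range (s' + 1), bb (a + c) s r * M :=
        sum_le_sum fun a _ => mul_le_mul_of_nonneg_left (hM a) (bb_nonneg (a + c) s h0 h1)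
    _ ≤ M := by
        rw [← sum_mul]
        have := sum_bb_shift h0 h1 s (s' + 1) c
        nlinarith

theorem pc_sum {r : ℝ} (h0 : 0 ≤ r) (h1 : r ≤ 1 / 2) (c N : ℕ) :
    ∑ j ∈ range (N + 1), pc c j (N - j) r ≤ 2 := by
  have hr1 : 0 < 1 - r := by linarith
  have h1' : r ≤ 1 := by linarith
  have e1 : ∀ j ∈ range (N + 1), pc c j (N - j) r =
      ∑ a ∈ range (N + 1), ((j.choose (a + c) * (N - j).choose a : ℕ) : ℝ) *
        ((1 - r) ^ (2 * a + c) * r ^ (N - (2 * a + c))) := by
    intro j hj
    rw [mem_range] at hj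
    unfold pc
    have hs : range (N - j + 1) ⊆ range (N + 1) := range_subset_range.mpr (by omega)
    rw [sum_subset (f := fun a => bb (a + c) j r * bb a (N - j) r) hs]
    · apply sum_congr rfl
      intro a _
      by_cases h : a + c ≤ j ∧ a ≤ N - j
      · unfold bb
        have e : N - (2 * a + c) = (j - (a + c)) + (N - j - a) := by omega
        have e' : 2 * a + c = (a + c) + a := by omega
        rw [e, pow_add r, e', pow_add (1 - r)]
        push_cast
        ring
      · rw [not_and_or] at h
        rcases h with h | h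
        · rw [bb_zero (by omega), Nat.choose_eq_zero_of_lt (by omega : j < a + c)]
          simp
        · rw [bb_zero (by omega : N - j < a), Nat.choose_eq_zero_of_lt (by omega : N - j < a)]
          simp
    · intro a _ ha
      rw [mem_range] at ha
      rw [bb_zero (by omega : N - j < a), mul_zero]
  rw [sum_congr rfl e1, sum_comm]
  have e2 : ∀ a ∈ range (N + 1), ∑ j ∈ range (N + 1),
      ((j.choose (a + c) * (N - j).choose a : ℕ) : ℝ) *
      ((1 - r) ^ (2 * a + c) * r ^ (N - (2 * a + c))) = bb (2 * a + c + 1) (N + 1) r / (1 - r) := by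
    intro a _
    rw [← sum_mul, ← Nat.cast_sum, conv]
    unfold bb
    rw [eq_div_iff hr1.ne']
    have e : a + c + a + 1 = 2 * a + c + 1 := by ring
    have e' : N + 1 - (2 * a + c + 1) = N - (2 * a + c) := by omega
    rw [e, e', pow_succ]
    ring
  rw [sum_congr rfl e2, ← sum_div, div_le_iff₀ hr1]
  have e3 : ∑ a ∈ range (N + 1), bb (2 * a + c + 1) (N + 1) r =
      ∑ m ∈ (range (N + 1)).image (fun a => 2 * a + c + 1), bb m (N + 1) r := by
    rw [sum_image]
    intro a _ b _ h
    simpa using h
  have e4 : ∑ m ∈ (range (N + 1)).image (fun a => 2 * a + c + 1), bb m (N + 1) r ≤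
      ∑ m ∈ range (2 * N + c + 3), bb m (N + 1) r := by
    apply sum_le_sum_of_subset_of_nonneg
    · intro m hm
      rw [mem_image] at hm
      obtain ⟨a, ha, rfl⟩ := hm
      rw [mem_range] at ha ⊢
      omega
    · exact fun m _ _ => bb_nonneg m _ h0 h1'
  have e5 := sum_bb_le h0 h1' (N + 1) (2 * N + c + 3)
  linarith

/-- for two sets with `N` elements together the probability is small -/
theorem pc_sup {r : ℝ} (h0 : 0 < r) (h1 : r ≤ 1 / 2) {n c s s' : ℕ} (hn : 0 < n)
    (hs : s + s' = n - 2) : pc c s s' r ≤ 8 / Real.sqrt (r * n) := by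
  have h1' : r ≤ 1 := by linarith
  have hn0 : (0 : ℝ) < n := by exact_mod_cast hn
  have hrn : 0 < r * n := by positivity
  by_cases h4 : n < 4
  · have hone : pc c s s' r ≤ 1 := pc_le_left h0.le h1' fun k => bb_le_one k s h0.le h1'
    refine hone.trans ?_
    rw [le_div_iff₀ (Real.sqrt_pos.mpr hrn), one_mul]
    have : Real.sqrt (r * n) ≤ Real.sqrt 64 := by
      apply Real.sqrt_le_sqrt
      have : (n : ℝ) ≤ 4 := by exact_mod_cast h4.le
      nlinarith
    have e : Real.sqrt 64 = 8 := by
      rw [show (64 : ℝ) = 8 ^ 2 by norm_num]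
      exact Real.sqrt_sq (by norm_num)
    rw [e] at this
    exact this
  · have key : ∀ s : ℕ, n ≤ 4 * s → ∀ k, bb k s r ≤ 8 / Real.sqrt (r * n) := by
      intro s hs k
      have hs1 : 1 ≤ s := by omega
      refine (bb_sup h0 h1 hs1).trans ?_
      have hs0 : (0 : ℝ) < s := by exact_mod_cast hs1
      have hrs : 0 < r * s := by positivity
      rw [div_le_div_iff₀ (Real.sqrt_pos.mpr hrs) (Real.sqrt_pos.mpr hrn)]
      have h2 : Real.sqrt (r * n) ≤ 2 * Real.sqrt (r * s) := by
        have e : (2 : ℝ) * Real.sqrt (r * s) = Real.sqrt (4 * (r * s)) := by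
          rw [Real.sqrt_mul (by norm_num : (0 : ℝ) ≤ 4)]
          congr 1
          rw [show (4 : ℝ) = 2 ^ 2 by norm_num]
          exact (Real.sqrt_sq (by norm_num)).symm
        rw [e]
        apply Real.sqrt_le_sqrt
        have : (n : ℝ) ≤ 4 * s := by exact_mod_cast hs
        nlinarith
      linarith
    rcases le_total s' s with h | h
    · exact pc_le_left h0.le h1' (key s (by omega))
    · exact pc_le_right h0.le h1' (key s' (by omega))

end Pool.Agent.V11122.Hv
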