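import Pool.Agent.V11122.Hv.Prob
import Pool.Agent.V11162.Halv

/-! Bisectors of the sets which remain after the deletion of points. -/

set_option autoImplicit false

namespace Pool.Agent.V11122.Hv

open Finset KLev.Halving Pool.Agent.H189R2.Lev Pool.Agent.H189R2.Iid Pool.Agent.Y344.KD
open Pool.Agent.V11162.Halv (LL line_param)
open Pool.Agent.Results.MP_a08d0a_co.SmoothedLevel (Simple)

variable {n : ℕ}

open scoped Classical in
/-- the points that are not below the line of the pair `q`, without the two points of the pair -/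
noncomputable def upSet (P : Fin n → ℝ × ℝ) (q : Fin n × Fin n) : Finset (Fin n) :=
  (univ \ lowSet P q).filter (fun l => l ≠ q.1 ∧ l ≠ q.2)

theorem not_low_left (p q : ℝ × ℝ) : p ∉ low p q := by
  intro h
  have h' : p.1 * X2 p q + p.2 < Y2 p q := h
  unfold Y2 at h'
  exact lt_irrefl _ h'

theorem not_low_right {p q : ℝ × ℝ} (hpq : q.1 < p.1) : q ∉ low p q := by
  intro h
  have h' : q.1 * X2 p q + q.2 < Y2 p q := h
  unfold Y2 X2 at h'
  have h0 : p.1 - q.1 ≠ 0 := by
    intro h0
    linarith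
  have : q.1 * ((q.2 - p.2) / (p.1 - q.1)) + q.2 = p.1 * ((q.2 - p.2) / (p.1 - q.1)) + p.2 := by
    field_simp
    ring
  rw [this] at h'
  exact lt_irrefl _ h'

theorem mem_lowSet {P : Fin n → ℝ × ℝ} {q : Fin n × Fin n} {l : Fin n} :
    l ∈ lowSet P q ↔ P l ∈ low (P q.1) (P q.2) := by
  classical
  unfold lowSet
  simp

theorem disj (P : Fin n → ℝ × ℝ) (q : Fin n × Fin n) : Disjoint (lowSet P q) (upSet P q) := by
  classical
  rw [disjoint_left]
  intro l h h'
  unfold upSet at h'
  rw [mem_filter, mem_sdiff] at h'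
  exact h'.1.2 h

theorem card_up {P : Fin n → ℝ × ℝ} {q : Fin n × Fin n} (hq : q ∈ T P) :
    (upSet P q).card = n - 2 - lev P q ∧ lev P q ≤ n - 2 ∧ 2 ≤ n := by
  classical
  rw [mem_T] at hq
  have hne : q.1 ≠ q.2 := by
    intro h
    rw [h] at hq
    exact lt_irrefl _ hq
  have e : upSet P q = univ \ (lowSet P q ∪ {q.1, q.2}) := by
    ext l
    unfold upSet
    simp only [mem_filter, mem_sdiff, mem_univ, true_and, mem_union, mem_insert, mem_singleton]
    tauto
  have h1 : q.1 ∉ lowSet P q := fun h => not_low_left _ _ (mem_lowSet.mp h)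
  have h2 : q.2 ∉ lowSet P q := fun h => not_low_right hq (mem_lowSet.mp h)
  have hd : Disjoint (lowSet P q) {q.1, q.2} := by
    rw [disjoint_right]
    intro l hl
    rw [mem_insert, mem_singleton] at hl
    rcases hl with rfl | rfl
    · exact h1
    · exact h2
  have hc : (lowSet P q ∪ {q.1, q.2}).card = lev P q + 2 := by
    rw [card_union_of_disjoint hd, card_pair hne, lev_eq]
  have hle := card_le_univ (lowSet P q ∪ {q.1, q.2})
  rw [hc, Fintype.card_fin] at hle
  rw [e, card_univ_diff, hc, Fintype.card_fin]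
  omega

open scoped Classical in
/-- the number of pairs with as many surviving points below as above -/
noncomputable def hcnt (P : Fin n → ℝ × ℝ) (D : Finset (Fin n)) : ℕ :=
  ((T P).filter (fun q => (lowSet P q \ D).card = (upSet P q \ D).card)).card

theorem exp_hcnt (P : Fin n → ℝ × ℝ) (r : ℝ) :
    ∑ D : Finset (Fin n), wt r D * hcnt P D =
      ∑ q ∈ T P, pe (lev P q) (n - 2 - lev P q) r := by
  classical
  have h1 : ∀ D : Finset (Fin n), wt r D * (hcnt P D : ℝ) =
      ∑ q ∈ T P, (if (lowSet P q \ D).card = (upSet P q \ D).card then wt r D else 0) := by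
    intro D
    unfold hcnt
    rw [← sum_filter, sum_const, nsmul_eq_mul, mul_comm]
  rw [sum_congr rfl (fun D _ => h1 D), sum_comm]
  apply sum_congr rfl
  intro q hq
  rw [joint (disj P q), (card_up hq).1, lev_eq]

theorem exp_bound {P : Fin n → ℝ × ℝ} (hP : GP P) (hn : 0 < n) {r : ℝ} (h0 : 0 < r)
    (h1 : r ≤ 1 / 2) :
    ∑ D : Finset (Fin n), wt r D * hcnt P D ≤
      240 * ((n : ℝ) ^ (7 / 6 : ℝ) * r ^ (-(1 / 6) : ℝ)) := by
  classical
  rw [exp_hcnt]
  have hn0 : (0 : ℝ) < n := by exact_mod_cast hn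
  have hrn : 0 < r * n := by positivity
  have h1' : r ≤ 1 := by linarith
  set w : ℕ → ℝ := fun j => if j ≤ n - 2 then pe j (n - 2 - j) r else 0 with hw
  have hM : 0 < 8 / Real.sqrt (r * n) := div_pos (by norm_num) (Real.sqrt_pos.mpr hrn)
  have key := sum_below hP (w := w) (M := 8 / Real.sqrt (r * n)) (J := n + 1) (by omega) hM
    (fun j _ => by
      simp only [hw]
      split_ifs
      · exact pe_nonneg h0.le h1' _ _
      · exact le_rfl)
    (fun j _ => by
      simp only [hw]
      split_ifs with h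
      · exact pe_sup h0 h1 hn h
      · exact hM.le)
    (by
      have hsub : range (n - 2 + 1) ⊆ range (n + 1) := range_subset_range.mpr (by omega)
      rw [← sum_subset hsub]
      · refine le_trans (le_of_eq ?_) (pe_sum h0.le h1 (n - 2))
        apply sum_congr rfl
        intro j hj
        rw [mem_range] at hj
        simp only [hw]
        rw [if_pos (by omega)]
      · intro j _ hj
        rw [mem_range] at hj
        simp only [hw]
        rw [if_neg (by omega)])
  rw [EW_all P le_rfl] at key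
  have e : ∑ q ∈ T P, w (lev P q) = ∑ q ∈ T P, pe (lev P q) (n - 2 - lev P q) r := by
    apply sum_congr rfl
    intro q hq
    simp only [hw]
    rw [if_pos (card_up hq).2.1]
  rw [e] at key
  refine key.trans ?_
  -- numerics
  have a1 : (((n + 1 : ℕ) : ℝ)) ^ (1 / 3 : ℝ) ≤ 2 ^ (1 / 3 : ℝ) * (n : ℝ) ^ (1 / 3 : ℝ) := by
    rw [← Real.mul_rpow (by norm_num) hn0.le]
    apply Real.rpow_le_rpow (by positivity) _ (by norm_num)
    have : (1 : ℝ) ≤ n := by exact_mod_cast hn
    push_cast
    linarith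
  have a2 : (8 / Real.sqrt (r * n)) ^ (1 / 3 : ℝ) = 2 * (r ^ (-(1 / 6) : ℝ) *
      (n : ℝ) ^ (-(1 / 6) : ℝ)) := by
    rw [Real.div_rpow (by norm_num) (Real.sqrt_nonneg _), Real.sqrt_eq_rpow,
      ← Real.rpow_mul hrn.le, ← Real.mul_rpow h0.le hn0.le, Real.rpow_neg hrn.le]
    have e8 : (8 : ℝ) ^ (1 / 3 : ℝ) = 2 := by
      rw [show (8 : ℝ) = 2 ^ (3 : ℝ) by norm_num, ← Real.rpow_mul (by norm_num)]
      norm_num
    rw [e8, show (1 / 2 * (1 / 3) : ℝ) = 1 / 6 by norm_num]
    rfl
  have a3 : (2 : ℝ) ^ (1 / 3 : ℝ) ≤ 4 / 3 := by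
    have h27 : ((4 : ℝ) / 3) = (((4 : ℝ) / 3) ^ (3 : ℝ)) ^ (1 / 3 : ℝ) := by
      rw [← Real.rpow_mul (by norm_num)]
      norm_num
    rw [h27]
    apply Real.rpow_le_rpow (by norm_num) _ (by norm_num)
    norm_num
  have a4 : (n : ℝ) ^ (7 / 6 : ℝ) = n * ((n : ℝ) ^ (1 / 3 : ℝ) * (n : ℝ) ^ (-(1 / 6) : ℝ)) := by
    rw [← Real.rpow_add hn0, show (7 / 6 : ℝ) = 1 + (1 / 3 + -(1 / 6)) by norm_num,
      Real.rpow_add hn0, Real.rpow_one]
  rw [a2, a4]
  have p1 : 0 ≤ (n : ℝ) ^ (1 / 3 : ℝ) := by positivity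
  have p2 : 0 ≤ (n : ℝ) ^ (-(1 / 6) : ℝ) := by positivity
  have p3 : 0 ≤ r ^ (-(1 / 6) : ℝ) := by positivity
  calc 90 * (n : ℝ) * ((((n + 1 : ℕ) : ℝ)) ^ (1 / 3 : ℝ) *
        (2 * (r ^ (-(1 / 6) : ℝ) * (n : ℝ) ^ (-(1 / 6) : ℝ))))
      ≤ 90 * (n : ℝ) * ((4 / 3 * (n : ℝ) ^ (1 / 3 : ℝ)) *
        (2 * (r ^ (-(1 / 6) : ℝ) * (n : ℝ) ^ (-(1 / 6) : ℝ)))) := by
        apply mul_le_mul_of_nonneg_left _ (by positivity)
        apply mul_le_mul_of_nonneg_right _ (by positivity)
        exact a1.trans (mul_le_mul_of_nonneg_right a3 p1)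
    _ = _ := by ring

theorem simple_of_general {f : Fin n → ℝ × ℝ} (hf : Function.Injective f)
    (hG : GeneralPosition (univ.image f)) :
    Simple (fun l => (f l).1) (fun l => (f l).2) := by
  refine ⟨fun i j hij h h' => hij (hf (Prod.ext h h')), ?_⟩
  rintro i j l hij hil hjl ⟨x, e1, e2⟩
  unfold ht at e1 e2
  refine hG x 1 ((f i).1 * x + (f i).2) (Or.inr one_ne_zero) (f i) (mem_image_of_mem _ (mem_univ _))
    (f j) (mem_image_of_mem _ (mem_univ _)) (f l) (mem_image_of_mem _ (mem_univ _))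
    (hf.ne hij) (hf.ne hil) (hf.ne hjl) ⟨?_, ?_, ?_⟩
  · change x * (f i).1 + 1 * (f i).2 = _
    ring
  · change x * (f j).1 + 1 * (f j).2 = _
    linarith
  · change x * (f l).1 + 1 * (f l).2 = _
    linarith

open scoped Classical in
theorem vert {Q : Finset (ℝ × ℝ)} {u w : ℝ} (hu : u ≠ 0)
    (h1 : (Q.filter (fun p => u * p.1 + 0 * p.2 < w)).card = Q.card / 2 - 1)
    (h2 : (Q.filter (fun p => w < u * p.1 + 0 * p.2)).card = Q.card / 2 - 1) :
    Line u 0 w = {p | p.1 = w / u} ∧
      (Q.filter (fun p => p.1 < w / u)).card = Q.card / 2 - 1 := by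
  constructor
  · ext p
    change u * p.1 + 0 * p.2 = w ↔ p.1 = w / u
    rw [eq_div_iff hu]
    constructor <;> intro h <;> linarith
  · rcases lt_or_gt_of_ne hu with h | h
    · rw [← h2]
      congr 1
      apply filter_congr
      intro p _
      rw [lt_div_iff_of_neg h]
      constructor <;> intro h <;> linarith
    · rw [← h1]
      congr 1
      apply filter_congr
      intro p _
      rw [lt_div_iff₀ h]
      constructor <;> intro h <;> linarith

open scoped Classical in
/-- the vertical bisectors -/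
def Vert (Q : Finset (ℝ × ℝ)) : Set (Set (ℝ × ℝ)) :=
  {L | ∃ u w : ℝ, u ≠ 0 ∧ L = Line u 0 w ∧ (∃ p ∈ Q, ∃ q ∈ Q, p ≠ q ∧ p ∈ L ∧ q ∈ L) ∧
    (Q.filter (fun p => u * p.1 + 0 * p.2 < w)).card = Q.card / 2 - 1 ∧
    (Q.filter (fun p => w < u * p.1 + 0 * p.2)).card = Q.card / 2 - 1}

theorem vert_sub (Q : Finset (ℝ × ℝ)) : (Vert Q).Subsingleton := by
  classical
  have key : ∀ c c' : ℝ, (Q.filter (fun p => p.1 < c)).card = Q.card / 2 - 1 →
      (Q.filter (fun p => p.1 < c')).card = Q.card / 2 - 1 →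
      (∃ p ∈ Q, ∃ q ∈ Q, p ≠ q ∧ p.1 = c ∧ q.1 = c) → ¬ c < c' := by
    rintro c c' h1 h2 ⟨p, hp, q, hq, hpq, hpc, hqc⟩ hlt
    have hsub : Q.filter (fun p => p.1 < c) ∪ {p, q} ⊆ Q.filter (fun p => p.1 < c') := by
      intro x hx
      rw [mem_union, mem_filter, mem_insert, mem_singleton] at hx
      rw [mem_filter]
      rcases hx with hx | rfl | rfl
      · exact ⟨hx.1, hx.2.trans hlt⟩
      · exact ⟨hp, by rw [hpc]; exact hlt⟩
      · exact ⟨hq, by rw [hqc]; exact hlt⟩
    have hd : Disjoint (Q.filter (fun p => p.1 < c)) {p, q} := by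
      rw [disjoint_right]
      intro x hx hx'
      rw [mem_insert, mem_singleton] at hx
      rw [mem_filter] at hx'
      rcases hx with rfl | rfl
      · linarith [hx'.2]
      · linarith [hx'.2]
    have := card_le_card hsub
    rw [card_union_of_disjoint hd, card_pair hpq] at this
    omega
  rintro L ⟨u, w, hu, hL, hpq, h1, h2⟩ L' ⟨u', w', hu', hL', hpq', h1', h2'⟩
  obtain ⟨e1, e2⟩ := vert hu h1 h2
  obtain ⟨e1', e2'⟩ := vert hu' h1' h2'
  rw [hL, e1] at hpq
  rw [hL', e1'] at hpq'
  have h3 := key _ _ e2 e2' hpq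
  have h4 := key _ _ e2' e2 hpq'
  rw [hL, hL', e1, e1', le_antisymm (not_lt.mp h4) (not_lt.mp h3)]

theorem bis_le {f : Fin n → ℝ × ℝ} (hf : Function.Injective f)
    (hG : GeneralPosition (univ.image f)) {P : Fin n → ℝ × ℝ}
    (hP : ∀ i j, (f j).1 < (f i).1 → (P j).1 < (P i).1 ∧ ∀ l, (P l ∈ low (P i) (P j) ↔
      ht (fun l => (f l).1) (fun l => (f l).2) l (cr (fun l => (f l).1) (fun l => (f l).2) i j) <
      ht (fun l => (f l).1) (fun l => (f l).2) i (cr (fun l => (f l).1) (fun l => (f l).2) i j)))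
    (D : Finset (Fin n)) :
    {L | IsBisector (Dᶜ.image f) L}.ncard ≤ hcnt P D + 1 := by
  classical
  set a : Fin n → ℝ := fun l => (f l).1 with ha
  set B : Fin n → ℝ := fun l => (f l).2 with hB
  set Q := Dᶜ.image f with hQ
  have hQf : ∀ s : ℝ × ℝ → Prop, (Q.filter s).card = (Dᶜ.filter (fun l => s (f l))).card := by
    intro s
    rw [hQ, filter_image, card_image_of_injective _ hf]
  have hthird : ∀ u v w : ℝ, (u ≠ 0 ∨ v ≠ 0) → ∀ i j l, i ≠ j → u * a i + v * B i = w →
      u * a j + v * B j = w → u * a l + v * B l = w → l = i ∨ l = j := by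
    intro u v w huv i j l hij h1 h2 h3
    by_contra hcon
    push Not at hcon
    exact hG u v w huv (f i) (mem_image_of_mem _ (mem_univ _)) (f j)
      (mem_image_of_mem _ (mem_univ _)) (f l) (mem_image_of_mem _ (mem_univ _)) (hf.ne hij)
      (hf.ne (Ne.symm hcon.1)) (hf.ne (Ne.symm hcon.2)) ⟨h1, h2, h3⟩
  have key : ∀ u v w : ℝ, v ≠ 0 → ∀ i j, i ∈ Dᶜ → j ∈ Dᶜ → a j < a i →
      u * a i + v * B i = w → u * a j + v * B j = w →
      (Q.filter (fun p => u * p.1 + v * p.2 < w)).card = Q.card / 2 - 1 →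
      (Q.filter (fun p => w < u * p.1 + v * p.2)).card = Q.card / 2 - 1 →
      Line u v w ∈ LL a B '' ((T P).filter
        (fun q => (lowSet P q \ D).card = (upSet P q \ D).card) : Finset (Fin n × Fin n)) := by
    intro u v w hv i j hi hj haij e1 e2 c1 c2
    have huv : u ≠ 0 ∨ v ≠ 0 := Or.inr hv
    have hij : i ≠ j := by
      rintro rfl
      exact lt_irrefl _ haij
    obtain ⟨-, h1, h2⟩ := line_param haij.ne' huv e1 e2
    obtain ⟨hT, hlow⟩ := hP i j haij
    have hht : ∀ l, ht a B l (u / v) = (u * a l + v * B l) / v := by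
      intro l
      unfold ht
      field_simp
    have hlow' : ∀ l, l ∈ lowSet P (i, j) ↔ (u * a l + v * B l) / v < w / v := by
      intro l
      rw [mem_lowSet]
      simp only
      rw [hlow l, h2, h1, hht]
    have hup' : ∀ l, l ∈ upSet P (i, j) ↔ w / v < (u * a l + v * B l) / v := by
      intro l
      unfold upSet
      rw [mem_filter, mem_sdiff]
      simp only [mem_univ, true_and]
      rw [hlow' l, not_lt]
      constructor
      · rintro ⟨h3, h4, h5⟩
        refine lt_of_le_of_ne h3 ?_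
        intro h6
        rw [div_left_inj' hv] at h6
        rcases hthird u v w huv i j l hij e1 e2 h6.symm with h | h
        · exact h4 h
        · exact h5 h
      · intro h3
        refine ⟨h3.le, ?_, ?_⟩
        · rintro rfl
          rw [e1] at h3
          exact lt_irrefl _ h3
        · rintro rfl
          rw [e2] at h3
          exact lt_irrefl _ h3
    refine ⟨(i, j), ?_, ?_⟩
    · rw [Finset.mem_coe, mem_filter, mem_T]
      refine ⟨hT, ?_⟩
      rw [hQf] at c1 c2
      have f1 : lowSet P (i, j) \ D = Dᶜ.filter (fun l => (u * a l + v * B l) / v < w / v) := by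
        ext l
        rw [mem_sdiff, hlow', mem_filter, mem_compl]
        tauto
      have f2 : upSet P (i, j) \ D = Dᶜ.filter (fun l => w / v < (u * a l + v * B l) / v) := by
        ext l
        rw [mem_sdiff, hup', mem_filter, mem_compl]
        tauto
      rw [f1, f2]
      rcases lt_or_gt_of_ne hv with hv' | hv'
      · simp only [div_lt_div_right_of_neg hv']
        exact c2.trans c1.symm
      · simp only [div_lt_div_iff_of_pos_right hv']
        exact c1.trans c2.symm
    · change Line (cr a B i j) 1 (ht a B i (cr a B i j)) = Line u v w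
      rw [h2, h1]
      ext p
      change u / v * p.1 + 1 * p.2 = w / v ↔ u * p.1 + v * p.2 = w
      rw [show u / v * p.1 + 1 * p.2 = (u * p.1 + v * p.2) / v by field_simp]
      exact div_left_inj' hv
  have hsub : {L | IsBisector Q L} ⊆ LL a B '' ((T P).filter
      (fun q => (lowSet P q \ D).card = (upSet P q \ D).card) : Finset (Fin n × Fin n)) ∪
      Vert Q := by
    rintro L ⟨u, v, w, huv, rfl, ⟨p, hp, q, hq, hpq, hpL, hqL⟩, c1, c2⟩
    by_cases hv : v = 0
    · right
      subst hv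
      refine ⟨u, w, by tauto, rfl, ⟨p, hp, q, hq, hpq, hpL, hqL⟩, ?_, ?_⟩
      · convert c1
      · convert c2
    · left
      rw [hQ, mem_image] at hp hq
      obtain ⟨i, hi, rfl⟩ := hp
      obtain ⟨j, hj, rfl⟩ := hq
      have e1 : u * a i + v * B i = w := hpL
      have e2 : u * a j + v * B j = w := hqL
      have c1' : (Q.filter (fun p => u * p.1 + v * p.2 < w)).card = Q.card / 2 - 1 := by
        convert c1
      have c2' : (Q.filter (fun p => w < u * p.1 + v * p.2)).card = Q.card / 2 - 1 := by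
        convert c2
      rcases lt_trichotomy (a i) (a j) with h | h | h
      · exact key u v w hv j i hj hi h e2 e1 c1' c2'
      · exfalso
        apply hpq
        refine Prod.ext h ?_
        have : v * B i = v * B j := by
          rw [h] at e1
          linarith
        exact mul_left_cancel₀ hv this
      · exact key u v w hv i j hi hj h e1 e2 c1' c2'
  have hV : (Vert Q).ncard ≤ 1 := by
    rcases (vert_sub Q).eq_empty_or_singleton with h | ⟨L, h⟩
    · rw [h]; simp
    · rw [h]; simp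
  have hVf : (Vert Q).Finite := (vert_sub Q).finite
  calc {L | IsBisector Q L}.ncard ≤ _ := Set.ncard_le_ncard hsub
        (((Finset.finite_toSet _).image _).union hVf)
    _ ≤ _ := Set.ncard_union_le _ _
    _ ≤ hcnt P D + 1 := by
        refine Nat.add_le_add ?_ hV
        refine (Set.ncard_image_le (Finset.finite_toSet _)).trans ?_
        rw [Set.ncard_coe_finset]
        unfold hcnt
        exact le_of_eq (by congr)

end Pool.Agent.V11122.Hv
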