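import Pool.Agent.V11122.Hv.Bis

/-! Random deletions of points: the expected number of bisectors, and an even number of survivors. -/

set_option autoImplicit false

namespace Pool.Agent.V11122.Hv

open Finset KLev.Halving Pool.Agent.H189R2.Lev Pool.Agent.H189R2.Iid Pool.Agent.Y344.KD

variable {n : ℕ}

/-- the number of bisectors of the surviving points -/
noncomputable def bis (f : Fin n → ℝ × ℝ) (D : Finset (Fin n)) : ℕ :=
  {L | IsBisector (Dᶜ.image f) L}.ncard

theorem mean_bis {f : Fin n → ℝ × ℝ} (hf : Function.Injective f)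
    (hG : GeneralPosition (univ.image f)) (hn : 0 < n) {r : ℝ} (h0 : 0 < r) (h1 : r ≤ 1 / 2) :
    ∑ D : Finset (Fin n), wt r D * bis f D ≤
      241 * ((n : ℝ) ^ (7 / 6 : ℝ) * r ^ (-(1 / 6) : ℝ)) := by
  classical
  obtain ⟨P, hGP, hP⟩ := exists_GP (simple_of_general hf hG)
  have hb := exp_bound hGP hn h0 h1
  have h1' : r ≤ 1 := by linarith
  have hX : 1 ≤ (n : ℝ) ^ (7 / 6 : ℝ) * r ^ (-(1 / 6) : ℝ) := by
    have e1 : 1 ≤ (n : ℝ) ^ (7 / 6 : ℝ) :=
      Real.one_le_rpow (by exact_mod_cast hn) (by norm_num)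
    have e2 : 1 ≤ r ^ (-(1 / 6) : ℝ) :=
      Real.one_le_rpow_of_pos_of_le_one_of_nonpos h0 h1' (by norm_num)
    nlinarith
  calc ∑ D : Finset (Fin n), wt r D * bis f D
      ≤ ∑ D : Finset (Fin n), (wt r D * hcnt P D + wt r D) := by
        apply sum_le_sum
        intro D _
        have h2 : (bis f D : ℝ) ≤ hcnt P D + 1 := by
          have := bis_le hf hG hP D
          unfold bis
          exact_mod_cast this
        have h3 := wt_nonneg h0.le h1' D
        nlinarith
    _ = ∑ D : Finset (Fin n), wt r D * hcnt P D + 1 := by rw [sum_add_distrib, sum_wt]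
    _ ≤ _ := by linarith

/-- an even number of points survive with probability at least one half, if `n` is even -/
theorem parity (hn : Even n) (r : ℝ) :
    1 / 2 ≤ ∑ D : Finset (Fin n), (if Even (Dᶜ.card) then wt r D else 0) := by
  classical
  have h1 := Fintype.prod_add (fun _ : Fin n => r) (fun _ => -(1 - r))
  have h2 : ∀ D : Finset (Fin n), (∏ _l ∈ D, r) * ∏ _l ∈ Dᶜ, -(1 - r) =
      2 * (if Even (Dᶜ.card) then wt r D else 0) - wt r D := by
    intro D
    rw [prod_const, prod_const]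
    have hc : Dᶜ.card = n - D.card := by rw [card_compl, Fintype.card_fin]
    by_cases h : Even (Dᶜ.card)
    · rw [if_pos h, Even.neg_pow h, hc]
      unfold wt
      ring
    · rw [if_neg h, Odd.neg_pow (Nat.not_even_iff_odd.mp h), hc]
      unfold wt
      ring
  rw [prod_const, card_univ, Fintype.card_fin] at h1
  rw [sum_congr rfl (fun D _ => h2 D), sum_sub_distrib, ← mul_sum, sum_wt] at h1
  have h3 : 0 ≤ (r + -(1 - r)) ^ n := hn.pow_nonneg _
  linarith

theorem exists_even {f : Fin n → ℝ × ℝ} (hf : Function.Injective f)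
    (hG : GeneralPosition (univ.image f)) (hn : 0 < n) (hne : Even n) {δ : ℝ} (h0 : 0 < δ)
    (h1 : δ ≤ 1) :
    ∃ D : Finset (Fin n), Even (Dᶜ.card) ∧ (D.card : ℝ) ≤ δ * n ∧
      (bis f D : ℝ) ≤ 2410 * ((n : ℝ) ^ (7 / 6 : ℝ) * δ ^ (-(1 / 6) : ℝ)) := by
  classical
  set r : ℝ := δ / 5 with hr
  have hr0 : 0 < r := by positivity
  have hr1 : r ≤ 1 / 2 := by linarith
  have hn0 : (0 : ℝ) < n := by exact_mod_cast hn
  set A : ℝ := 241 * ((n : ℝ) ^ (7 / 6 : ℝ) * r ^ (-(1 / 6) : ℝ)) with hA
  have hA0 : 0 < A := by positivity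
  have hm := mean_bis hf hG hn hr0 hr1
  have hex : ∃ D : Finset (Fin n), Even (Dᶜ.card) ∧ (bis f D : ℝ) / A + D.card / (n * r) ≤ 5 := by
    by_contra hcon
    push Not at hcon
    have h2 : ∑ D : Finset (Fin n), wt r D * ((bis f D : ℝ) / A + D.card / (n * r)) ≤ 2 := by
      have e : ∀ D : Finset (Fin n), wt r D * ((bis f D : ℝ) / A + D.card / (n * r)) =
          (wt r D * bis f D) / A + (wt r D * D.card) / (n * r) := by
        intro D
        ring
      rw [sum_congr rfl (fun D _ => e D), sum_add_distrib, ← sum_div, ← sum_div, sum_wt_card,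
        div_self (by positivity)]
      have : (∑ D : Finset (Fin n), wt r D * (bis f D : ℝ)) / A ≤ 1 := by
        rw [div_le_one hA0]
        exact hm
      linarith
    have h3 : ∑ D : Finset (Fin n), 5 * (if Even (Dᶜ.card) then wt r D else 0) ≤
        ∑ D : Finset (Fin n), wt r D * ((bis f D : ℝ) / A + D.card / (n * r)) := by
      apply sum_le_sum
      intro D _
      have hw := wt_nonneg hr0.le (by linarith : r ≤ 1) D
      by_cases h : Even (Dᶜ.card)
      · rw [if_pos h]
        have := hcon D h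
        nlinarith
      · rw [if_neg h, mul_zero]
        positivity
    rw [← mul_sum] at h3
    have h4 := parity hne r
    linarith
  obtain ⟨D, hD, hF⟩ := hex
  refine ⟨D, hD, ?_, ?_⟩
  · have h2 : (D.card : ℝ) / (n * r) ≤ 5 := by
      have : 0 ≤ (bis f D : ℝ) / A := by positivity
      linarith
    rw [div_le_iff₀ (by positivity)] at h2
    rw [hr] at h2
    linarith
  · have h2 : (bis f D : ℝ) / A ≤ 5 := by
      have : 0 ≤ (D.card : ℝ) / (n * r) := by positivity
      linarith
    rw [div_le_iff₀ hA0] at h2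
    refine h2.trans ?_
    have h5 : r ^ (-(1 / 6) : ℝ) ≤ 2 * δ ^ (-(1 / 6) : ℝ) := by
      rw [hr, Real.div_rpow h0.le (by norm_num), div_le_iff₀ (by positivity)]
      have h6 : (1 : ℝ) / 2 ≤ 5 ^ (-(1 / 6) : ℝ) := by
        rw [Real.rpow_neg (by norm_num), one_div]
        apply inv_anti₀ (by positivity)
        calc (5 : ℝ) ^ (1 / 6 : ℝ) ≤ 64 ^ (1 / 6 : ℝ) :=
              Real.rpow_le_rpow (by norm_num) (by norm_num) (by norm_num)
          _ = 2 := by
              rw [show (64 : ℝ) = 2 ^ (6 : ℝ) by norm_num, ← Real.rpow_mul (by norm_num)]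
              norm_num
      have h7 : 0 < δ ^ (-(1 / 6) : ℝ) := by positivity
      nlinarith
    have h8 : 0 < (n : ℝ) ^ (7 / 6 : ℝ) := by positivity
    rw [hA]
    nlinarith [mul_le_mul_of_nonneg_left h5 h8.le]

end Pool.Agent.V11122.Hv
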