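import Pool.Agent.V11122.Hv.Bis

/-! A partition of (most of) a planar point set into four large classes such that every line through
two of the points has one of the classes entirely on one of its sides. -/

set_option autoImplicit false

namespace Pool.Agent.V11122.Hv

open Finset Pool.Agent.H189R2.Lev Pool.Agent.H189R2.Iid Pool.Agent.Y344.KD

theorem exists_rank {ι : Type*} [DecidableEq ι] (S : Finset ι) (v : ι → ℝ)
    (hv : ∀ s ∈ S, ∀ t ∈ S, v s = v t → s = t) {k : ℕ} (hk : k < S.card) :
    ∃ s ∈ S, (S.filter (fun t => v t < v s)).card = k := by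
  classical
  have hmono : ∀ s ∈ S, ∀ t ∈ S, v s < v t →
      (S.filter (fun u => v u < v s)).card < (S.filter (fun u => v u < v t)).card := by
    intro s hs t _ hst
    apply card_lt_card
    rw [ssubset_iff_of_subset]
    · exact ⟨s, mem_filter.mpr ⟨hs, hst⟩, fun h => lt_irrefl _ (mem_filter.mp h).2⟩
    · intro u hu
      rw [mem_filter] at hu ⊢
      exact ⟨hu.1, hu.2.trans hst⟩
  have hinj : Set.InjOn (fun s => (S.filter (fun u => v u < v s)).card) (S : Set ι) := by
    intro s hs t ht h
    simp only at h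
    rcases lt_trichotomy (v s) (v t) with h1 | h1 | h1
    · exact absurd h (hmono s hs t ht h1).ne
    · exact hv s hs t ht h1
    · exact absurd h (hmono t ht s hs h1).ne'
  have himg : S.image (fun s => (S.filter (fun u => v u < v s)).card) = range S.card := by
    apply eq_of_subset_of_card_le
    · intro m hm
      obtain ⟨s, hs, rfl⟩ := mem_image.mp hm
      rw [mem_range]
      apply card_lt_card
      rw [ssubset_iff_of_subset (filter_subset _ _)]
      exact ⟨s, hs, fun h => lt_irrefl _ (mem_filter.mp h).2⟩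
    · rw [card_image_of_injOn hinj, card_range]
  have := himg.symm ▸ mem_range.mpr hk
  obtain ⟨s, hs, h⟩ := mem_image.mp this
  exact ⟨s, hs, h⟩

variable {n : ℕ} {P : Fin n → ℝ × ℝ}

/-- height of the dual line of the point `P l` above `x` -/
def hh (P : Fin n → ℝ × ℝ) (l : Fin n) (x : ℝ) : ℝ := (P l).1 * x + (P l).2

theorem hh_add (P : Fin n → ℝ × ℝ) (l : Fin n) (x y : ℝ) :
    hh P l y = hh P l x + (P l).1 * (y - x) := by
  unfold hh
  ring

theorem hh_lt {l r : Fin n} (h : (P l).1 < (P r).1) (x : ℝ) :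
    hh P l x < hh P r x ↔ X2 (P r) (P l) < x := by
  unfold hh X2
  rw [div_lt_iff₀ (by linarith)]
  constructor <;> intro h' <;> nlinarith

theorem hh_gt {l r : Fin n} (h : (P l).1 < (P r).1) (x : ℝ) :
    hh P r x < hh P l x ↔ x < X2 (P r) (P l) := by
  unfold hh X2
  rw [lt_div_iff₀ (by linarith)]
  constructor <;> intro h' <;> nlinarith

theorem Y_left (q : Fin n × Fin n) : Y2 (P q.1) (P q.2) = hh P q.1 (X2 (P q.1) (P q.2)) := rfl

theorem Y_right {q : Fin n × Fin n} (hq : (P q.2).1 < (P q.1).1) :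
    Y2 (P q.1) (P q.2) = hh P q.2 (X2 (P q.1) (P q.2)) := by
  rw [Y_left]
  apply le_antisymm
  · have := (hh_lt hq (X2 (P q.1) (P q.2))).not
    have h2 := this.mpr (lt_irrefl _)
    have h3 := (hh_gt hq (X2 (P q.1) (P q.2))).not.mpr (lt_irrefl _)
    linarith
  · exact not_lt.mp ((hh_gt hq (X2 (P q.1) (P q.2))).not.mpr (lt_irrefl _))

theorem low_of {q : Fin n × Fin n} {l : Fin n}
    (h : hh P l (X2 (P q.1) (P q.2)) < Y2 (P q.1) (P q.2)) : l ∈ lowSet P q := by
  rw [mem_lowSet]
  exact h

theorem up_of {q : Fin n × Fin n} {l : Fin n} (hq : q ∈ T P)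
    (h : Y2 (P q.1) (P q.2) < hh P l (X2 (P q.1) (P q.2))) : l ∈ upSet P q := by
  classical
  rw [mem_T] at hq
  unfold upSet
  rw [mem_filter, mem_sdiff]
  refine ⟨⟨mem_univ _, fun h' => ?_⟩, ?_, ?_⟩
  · rw [mem_lowSet] at h'
    have h'' : hh P l (X2 (P q.1) (P q.2)) < Y2 (P q.1) (P q.2) := h'
    exact lt_asymm h h''
  · rintro rfl
    rw [Y_left] at h
    exact lt_irrefl _ h
  · rintro rfl
    rw [Y_right hq] at h
    exact lt_irrefl _ h

/-- the four classes -/
theorem classes (hP : GP P) (hn : 16 ≤ n) :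
    ∃ C : Fin 4 → Finset (Fin n), (∀ i j, i ≠ j → Disjoint (C i) (C j)) ∧
      (∀ i, n ≤ 8 * (C i).card) ∧
      ∀ q ∈ T P, ∃ i, C i ⊆ lowSet P q ∨ C i ⊆ upSet P q := by
  classical
  -- left and right half
  obtain ⟨s, -, hs⟩ := exists_rank (univ : Finset (Fin n)) (fun l => (P l).1)
    (fun i _ j _ h => hP.1 i j h) (k := n / 2) (by rw [card_univ, Fintype.card_fin]; omega)
  set σ : ℝ := (P s).1 with hσ
  set L : Finset (Fin n) := univ.filter (fun t => (P t).1 < σ) with hL
  set R : Finset (Fin n) := univ.filter (fun t => ¬ (P t).1 < σ) with hR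
  have hLR : L.card + R.card = n := by
    have := card_filter_add_card_filter_not (s := (univ : Finset (Fin n))) (fun t => (P t).1 < σ)
    rw [card_univ, Fintype.card_fin] at this
    exact this
  have hLc : L.card = n / 2 := hs
  have mL : ∀ l ∈ L, (P l).1 < σ := fun l hl => (mem_filter.mp hl).2
  have mR : ∀ r ∈ R, σ ≤ (P r).1 := fun r hr => not_lt.mp (mem_filter.mp hr).2
  have mLR : ∀ l ∈ L, ∀ r ∈ R, (P l).1 < (P r).1 := fun l hl r hr => (mL l hl).trans_le (mR r hr)
  -- the median of the right half seen from `l`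
  have hr0 : ∀ l ∈ L, ∃ r ∈ R, (R.filter (fun t => X2 (P t) (P l) < X2 (P r) (P l))).card =
      R.card / 2 := by
    intro l hl
    apply exists_rank R (fun r => X2 (P r) (P l))
    · intro r hr t ht h
      exact (hP.2 _ _ _ _ (mLR l hl r hr) (mLR l hl t ht) h).1
    · omega
  choose! r0 hr0R hr0c using hr0
  obtain ⟨l0, hl0, hl0c⟩ := exists_rank L (fun l => X2 (P (r0 l)) (P l))
    (fun l hl t ht h => (hP.2 _ _ _ _ (mLR l hl _ (hr0R l hl)) (mLR t ht _ (hr0R t ht)) h).2)
    (k := L.card / 2) (by omega)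
  set x0 : ℝ := X2 (P (r0 l0)) (P l0) with hx0
  set y0 : ℝ := hh P l0 x0 with hy0
  have hxc := hr0c l0 hl0
  rw [← hx0] at hxc
  -- comparison of the heights at `x0`
  have hA : ∀ r ∈ R, X2 (P r) (P l0) < x0 → y0 < hh P r x0 := fun r hr h =>
    (hh_lt (mLR l0 hl0 r hr) x0).mpr h
  have hB : ∀ r ∈ R, y0 < hh P r x0 → X2 (P r) (P l0) < x0 := fun r hr h =>
    (hh_lt (mLR l0 hl0 r hr) x0).mp h
  have hC : ∀ r ∈ R, X2 (P r) (P l0) ≤ x0 → y0 ≤ hh P r x0 := fun r hr h =>
    not_lt.mp ((hh_gt (mLR l0 hl0 r hr) x0).not.mpr (not_lt.mpr h))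
  have hD : ∀ r ∈ R, y0 ≤ hh P r x0 → X2 (P r) (P l0) ≤ x0 := fun r hr h =>
    not_lt.mp ((hh_gt (mLR l0 hl0 r hr) x0).not.mp (not_lt.mpr h))
  have hle : ∀ r ∈ R, X2 (P r) (P l0) ≤ x0 → X2 (P r) (P l0) < x0 ∨ r = r0 l0 := by
    intro r hr h
    rcases h.lt_or_eq with h | h
    · exact Or.inl h
    · exact Or.inr (hP.2 _ _ _ _ (mLR l0 hl0 r hr) (mLR l0 hl0 _ (hr0R l0 hl0)) h).1
  -- the number of elements with `X2 ≤ x0`
  have hcle : ∀ l ∈ L, (R.filter (fun r => X2 (P r) (P l) ≤ X2 (P (r0 l)) (P l))).card =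
      R.card / 2 + 1 := by
    intro l hl
    have e : R.filter (fun r => X2 (P r) (P l) ≤ X2 (P (r0 l)) (P l)) =
        insert (r0 l) (R.filter (fun r => X2 (P r) (P l) < X2 (P (r0 l)) (P l))) := by
      ext r
      constructor
      · intro h'
        obtain ⟨hr, h⟩ := mem_filter.mp h'
        rcases h.lt_or_eq with h | h
        · exact mem_insert_of_mem (mem_filter.mpr ⟨hr, h⟩)
        · exact mem_insert.mpr
            (Or.inl (hP.2 _ _ _ _ (mLR l hl r hr) (mLR l hl _ (hr0R l hl)) h).1)
      · intro h'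
        rcases mem_insert.mp h' with h | h
        · rw [h]
          exact mem_filter.mpr ⟨hr0R l hl, le_rfl⟩
        · obtain ⟨hr, h⟩ := mem_filter.mp h
          exact mem_filter.mpr ⟨hr, h.le⟩
    rw [e, card_insert_of_notMem, hr0c l hl]
    intro h
    exact lt_irrefl _ (mem_filter.mp h).2
  set C : Fin 4 → Finset (Fin n) := ![R.filter (fun r => y0 ≤ hh P r x0),
    R.filter (fun r => hh P r x0 < y0), L.filter (fun l => y0 ≤ hh P l x0),
    L.filter (fun l => hh P l x0 < y0)] with hCdef
  have c0 : C 0 = R.filter (fun r => y0 ≤ hh P r x0) := rfl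
  have c1 : C 1 = R.filter (fun r => hh P r x0 < y0) := rfl
  have c2 : C 2 = L.filter (fun l => y0 ≤ hh P l x0) := rfl
  have c3 : C 3 = L.filter (fun l => hh P l x0 < y0) := rfl
  have hdLR : ∀ x, x ∈ L → x ∈ R → False := fun x h1 h2 => (mem_filter.mp h2).2 (mem_filter.mp h1).2
  refine ⟨C, ?_, ?_, ?_⟩
  · have key : ∀ i j x, x ∈ C i → x ∈ C j → i = j := by
      intro i j x hi hj
      fin_cases i <;> fin_cases j <;>
        simp only [Fin.zero_eta, Fin.mk_one, Fin.reduceFinMk, c0, c1, c2, c3, mem_filter] at hi hj ⊢ <;>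
        first
        | (exfalso; linarith [hi.2, hj.2])
        | (exfalso; exact hdLR x hi.1 hj.1)
        | (exfalso; exact hdLR x hj.1 hi.1)
    intro i j hij
    rw [disjoint_left]
    intro x hi hj
    exact hij (key i j x hi hj)
  · -- sizes
    have s0 : R.card / 2 ≤ (C 0).card := by
      rw [← hxc, c0]
      apply card_le_card
      intro r hr
      rw [mem_filter] at hr ⊢
      exact ⟨hr.1, (hA r hr.1 hr.2).le⟩
    have s1 : R.card ≤ (C 1).card + (R.card / 2 + 1) := by
      have h1 := card_filter_add_card_filter_not (s := R) (fun r => hh P r x0 < y0)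
      have h2 : (R.filter (fun r => ¬ hh P r x0 < y0)).card ≤ R.card / 2 + 1 := by
        rw [← hcle l0 hl0]
        apply card_le_card
        intro r hr
        rw [mem_filter] at hr ⊢
        exact ⟨hr.1, hD r hr.1 (not_lt.mp hr.2)⟩
      rw [c1]
      omega
    have s3 : L.card / 2 ≤ (C 3).card := by
      rw [← hl0c, c3]
      apply card_le_card
      intro l hl
      rw [mem_filter] at hl ⊢
      refine ⟨hl.1, ?_⟩
      by_contra hcon
      rw [not_lt] at hcon
      have h1 : (R.filter (fun r => X2 (P r) (P l) ≤ X2 (P (r0 l)) (P l))).card ≤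
          (R.filter (fun t => X2 (P t) (P l0) < x0)).card := by
        apply card_le_card
        intro r hr
        rw [mem_filter] at hr ⊢
        refine ⟨hr.1, hB r hr.1 (hcon.trans_lt ?_)⟩
        exact (hh_lt (mLR l hl.1 r hr.1) x0).mpr (hr.2.trans_lt hl.2)
      rw [hcle l hl.1, hxc] at h1
      omega
    have s2 : L.card ≤ (C 2).card + L.card / 2 := by
      have h1 := card_filter_add_card_filter_not (s := L)
        (fun l => X2 (P (r0 l)) (P l) < x0)
      rw [hl0c] at h1
      have h2 : (L.filter (fun l => ¬ X2 (P (r0 l)) (P l) < x0)).card ≤ (C 2).card := by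
        rw [c2]
        apply card_le_card
        intro l hl
        rw [mem_filter] at hl ⊢
        refine ⟨hl.1, ?_⟩
        by_contra hcon
        rw [not_le] at hcon
        have h3 : (R.filter (fun r => X2 (P r) (P l0) ≤ X2 (P (r0 l0)) (P l0))).card ≤
            (R.filter (fun t => X2 (P t) (P l) < X2 (P (r0 l)) (P l))).card := by
          apply card_le_card
          intro r hr
          rw [mem_filter] at hr ⊢
          refine ⟨hr.1, lt_of_lt_of_le ?_ (not_lt.mp hl.2)⟩
          exact (hh_lt (mLR l hl.1 r hr.1) x0).mp (hcon.trans_le (hC r hr.1 hr.2))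
        rw [hcle l0 hl0, hr0c l hl.1] at h3
        omega
      omega
    intro i
    fin_cases i
    · change n ≤ 8 * (C 0).card
      omega
    · change n ≤ 8 * (C 1).card
      omega
    · change n ≤ 8 * (C 2).card
      omega
    · change n ≤ 8 * (C 3).card
      omega
  · -- every pair misses one class
    intro q hq
    set X := X2 (P q.1) (P q.2) with hX
    set Y := Y2 (P q.1) (P q.2) with hY
    rcases le_or_gt x0 X with hx | hx
    · rcases le_or_gt (y0 + σ * (X - x0)) Y with hy | hy
      · refine ⟨3, Or.inl fun l hl => low_of ?_⟩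
        rw [c3, mem_filter] at hl
        rw [← hX, ← hY, hh_add P l x0 X]
        have := mL l hl.1
        nlinarith [hl.2]
      · refine ⟨0, Or.inr fun l hl => up_of hq ?_⟩
        rw [c0, mem_filter] at hl
        rw [← hX, ← hY, hh_add P l x0 X]
        have := mR l hl.1
        nlinarith [hl.2]
    · rcases le_or_gt (y0 + σ * (X - x0)) Y with hy | hy
      · refine ⟨1, Or.inl fun l hl => low_of ?_⟩
        rw [c1, mem_filter] at hl
        rw [← hX, ← hY, hh_add P l x0 X]
        have := mR l hl.1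
        nlinarith [hl.2]
      · refine ⟨2, Or.inr fun l hl => up_of hq ?_⟩
        rw [c2, mem_filter] at hl
        rw [← hX, ← hY, hh_add P l x0 X]
        have := mL l hl.1
        nlinarith [hl.2]

end Pool.Agent.V11122.Hv
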