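import Pool.Agent.V11122.Hv.Ham

/-! Deleting few points so that few pairs are almost halving for the surviving points. -/

set_option autoImplicit false

namespace Pool.Agent.V11122.Hv

open Finset Pool.Agent.H189R2.Lev Pool.Agent.H189R2.Iid Pool.Agent.Y344.KD

variable {n : ℕ}

/-- the number of surviving points below minus the number of those above the line of a pair -/
noncomputable def imb (P : Fin n → ℝ × ℝ) (D : Finset (Fin n)) (q : Fin n × Fin n) : ℤ :=
  ((lowSet P q \ D).card : ℤ) - ((upSet P q \ D).card : ℤ)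

open scoped Classical in
/-- the number of pairs of imbalance at distance at most `3` from `c` -/
noncomputable def hw (P : Fin n → ℝ × ℝ) (c : ℤ) (D : Finset (Fin n)) : ℕ :=
  ((T P).filter (fun q => |imb P D q - c| ≤ 3)).card

theorem imb_eq (P : Fin n → ℝ × ℝ) (D : Finset (Fin n)) (q : Fin n × Fin n) :
    imb P D q = ((lowSet P q).card - (upSet P q).card : ℤ) -
      (((lowSet P q ∩ D).card : ℤ) - ((upSet P q ∩ D).card : ℤ)) := by
  have h1 := card_sdiff_add_card_inter (lowSet P q) D
  have h2 := card_sdiff_add_card_inter (upSet P q) D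
  unfold imb
  omega

theorem imb_bound {P : Fin n → ℝ × ℝ} {q : Fin n × Fin n} (hq : q ∈ T P) {c : ℤ}
    {D : Finset (Fin n)} {M : ℕ} (hD : D.card ≤ M) (h : |imb P D q - c| ≤ 3) :
    |2 * (lev P q : ℤ) - (n - 2) - c| ≤ M + 3 := by
  obtain ⟨h1, h2, h3⟩ := card_up hq
  have h4 : (lowSet P q ∩ D).card ≤ M := (card_le_card inter_subset_right).trans hD
  have h5 : (upSet P q ∩ D).card ≤ M := (card_le_card inter_subset_right).trans hD
  rw [imb_eq, ← lev_eq, h1] at h
  rw [abs_le] at h ⊢
  omega

/-- the levels close to a given distance from the middle -/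
def win (n : ℕ) (c : ℤ) (M : ℕ) : Finset ℕ :=
  (range (n + 1)).filter (fun j => |2 * (j : ℤ) - (n - 2) - c| ≤ M)

theorem win_card (n : ℕ) (c : ℤ) (M : ℕ) : (win n c M).card ≤ M + 1 := by
  have h : (win n c M).card ≤ (range (M + 1)).card := by
    apply card_le_card_of_injOn (fun j : ℕ => ((2 * (j : ℤ) - (n - 2) - c + M) / 2).toNat)
    · intro j hj
      unfold win at hj
      rw [mem_coe, mem_filter, abs_le] at hj
      rw [mem_coe, mem_range]
      simp only
      omega
    · intro j hj j' hj' h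
      unfold win at hj hj'
      rw [mem_coe, mem_filter, abs_le] at hj hj'
      simp only at h
      omega
  rwa [card_range] at h

/-- chosen subsets of given size -/
theorem exists_sb (C : Fin 4 → Finset (Fin n)) :
    ∃ g : Fin 4 → ℕ → Finset (Fin n), ∀ i m, m ≤ (C i).card → g i m ⊆ C i ∧ (g i m).card = m := by
  have : ∀ i : Fin 4, ∀ m : ℕ, ∃ t : Finset (Fin n), m ≤ (C i).card → t ⊆ C i ∧ t.card = m := by
    intro i m
    by_cases h : m ≤ (C i).card
    · obtain ⟨t, h1, h2⟩ := exists_subset_card_eq h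
      exact ⟨t, fun _ => ⟨h1, h2⟩⟩
    · exact ⟨∅, fun h' => absurd h' h⟩
  choose g hg using this
  exact ⟨g, hg⟩

theorem avg {P : Fin n → ℝ × ℝ} (K : Finset ℤ) {C : Fin 4 → Finset (Fin n)}
    (hdis : ∀ i j, i ≠ j → Disjoint (C i) (C j))
    (hmiss : ∀ q ∈ T P, ∃ i, C i ⊆ lowSet P q ∨ C i ⊆ upSet P q) {T' : ℕ} (hT : 0 < T')
    (hsize : ∀ i, 8 * (T' - 1) ≤ (C i).card) :
    ∃ D : Finset (Fin n), Even D.card ∧ D.card ≤ 32 * (T' - 1) ∧
      (∑ c ∈ K, hw P c D) * T' ≤ ∑ c ∈ K, (EW P (win n c (32 * T'))).card := by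
  classical
  obtain ⟨g, hg⟩ := exists_sb C
  set G : (Fin 4 → Fin T') → Fin 4 → Finset (Fin n) := fun t i => g i (8 * t i) with hG
  have hGs : ∀ t i, G t i ⊆ C i ∧ (G t i).card = 8 * t i := by
    intro t i
    apply hg
    have := (t i).2
    have := hsize i
    omega
  set D : (Fin 4 → Fin T') → Finset (Fin n) := fun t => univ.biUnion (G t) with hDdef
  have hGd : ∀ t, ∀ i j, i ≠ j → Disjoint (G t i) (G t j) := fun t i j hij =>
    (hdis i j hij).mono (hGs t i).1 (hGs t j).1
  have hDc : ∀ t, (D t).card = ∑ i, 8 * (t i : ℕ) := by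
    intro t
    rw [hDdef]
    simp only
    rw [card_biUnion (fun i _ j _ hij => hGd t i j hij)]
    exact sum_congr rfl fun i _ => (hGs t i).2
  have hDi : ∀ (S : Finset (Fin n)) (t : Fin 4 → Fin T'),
      (S ∩ D t).card = ∑ i, (S ∩ G t i).card := by
    intro S t
    rw [hDdef]
    simp only
    rw [inter_biUnion, card_biUnion]
    intro i _ j _ hij
    exact (hGd t i j hij).mono inter_subset_right inter_subset_right
  have hDle : ∀ t, (D t).card ≤ 32 * (T' - 1) := by
    intro t
    rw [hDc]
    calc ∑ i, 8 * (t i : ℕ) ≤ ∑ _i : Fin 4, 8 * (T' - 1) := by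
          apply sum_le_sum
          intro i _
          have := (t i).2
          omega
      _ = 32 * (T' - 1) := by
          rw [sum_const, card_univ, Fintype.card_fin, smul_eq_mul]
          ring
  -- for a fixed pair there are at most `T' ^ 3` choices
  have hfew : ∀ c : ℤ, ∀ q ∈ T P, (univ.filter (fun t : Fin 4 → Fin T' =>
      |imb P (D t) q - c| ≤ 3)).card ≤ T' ^ 3 := by
    intro c q hq
    obtain ⟨i, hi⟩ := hmiss q hq
    set d : Fin 4 → Fin T' → ℤ := fun j m => ((lowSet P q ∩ g j (8 * m)).card : ℤ) -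
      ((upSet P q ∩ g j (8 * m)).card : ℤ) with hd
    have hF : ∀ t, imb P (D t) q = ((lowSet P q).card - (upSet P q).card : ℤ) -
        ∑ j, d j (t j) := by
      intro t
      rw [imb_eq, hDi, hDi, hd, sum_sub_distrib]
      push_cast
      rfl
    have hdi : (∀ m, d i m = 8 * (m : ℕ)) ∨ ∀ m, d i m = -(8 * (m : ℕ)) := by
      have hsz : ∀ m : Fin T', 8 * (m : ℕ) ≤ (C i).card := by
        intro m
        have := m.2
        have := hsize i
        omega
      rcases hi with hi | hi
      · left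
        intro m
        obtain ⟨h1, h2⟩ := hg i (8 * m) (hsz m)
        have e1 : lowSet P q ∩ g i (8 * m) = g i (8 * m) := inter_eq_right.mpr (h1.trans hi)
        have e2 : upSet P q ∩ g i (8 * m) = ∅ := by
          rw [← disjoint_iff_inter_eq_empty]
          exact ((disj P q).symm).mono_right (h1.trans hi)
        simp only [hd]
        rw [e1, e2, h2, card_empty]
        push_cast
        ring
      · right
        intro m
        obtain ⟨h1, h2⟩ := hg i (8 * m) (hsz m)
        have e1 : upSet P q ∩ g i (8 * m) = g i (8 * m) := inter_eq_right.mpr (h1.trans hi)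
        have e2 : lowSet P q ∩ g i (8 * m) = ∅ := by
          rw [← disjoint_iff_inter_eq_empty]
          exact (disj P q).mono_right (h1.trans hi)
        simp only [hd]
        rw [e1, e2, h2, card_empty]
        push_cast
        ring
    have hcard : Fintype.card ({j : Fin 4 // j ≠ i} → Fin T') = T' ^ 3 := by
      rw [Fintype.card_fun, Fintype.card_fin]
      congr 1
      simp
    rw [← hcard, ← card_univ]
    apply card_le_card_of_injOn (fun t => fun j : {j : Fin 4 // j ≠ i} => t j)
    · intro t _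
      exact mem_coe.mpr (mem_univ _)
    · intro t ht t' ht' h
      rw [mem_coe, mem_filter] at ht ht'
      have hj : ∀ j, j ≠ i → t j = t' j := fun j hj => congrFun h ⟨j, hj⟩
      have h1 : ∑ j, d j (t j) - ∑ j, d j (t' j) = d i (t i) - d i (t' i) := by
        rw [← add_sum_erase _ _ (mem_univ i), ← add_sum_erase _ (fun j => d j (t' j)) (mem_univ i)]
        have : ∑ j ∈ univ.erase i, d j (t j) = ∑ j ∈ univ.erase i, d j (t' j) := by
          apply sum_congr rfl
          intro j hj'
          rw [hj j (ne_of_mem_erase hj')]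
        rw [this]
        ring
      have h2 := ht.2
      have h3 := ht'.2
      rw [hF, abs_le] at h2 h3
      have hi' : t i = t' i := by
        apply Fin.ext
        rcases hdi with hdi | hdi
        · rw [hdi, hdi] at h1
          omega
        · rw [hdi, hdi] at h1
          omega
      funext j
      by_cases hji : j = i
      · rw [hji]; exact hi'
      · exact hj j hji
  -- double counting
  have hwin : ∀ c : ℤ, ∀ t, ∀ q ∈ T P, |imb P (D t) q - c| ≤ 3 →
      q ∈ EW P (win n c (32 * T')) := by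
    intro c t q hq h
    unfold EW
    rw [mem_filter]
    refine ⟨hq, ?_⟩
    unfold win
    rw [mem_filter, mem_range]
    refine ⟨lev_lt P q, ?_⟩
    have := imb_bound hq (hDle t) h
    refine this.trans ?_
    push_cast
    omega
  have hsum1 : ∀ c : ℤ, ∑ t, hw P c (D t) ≤ (EW P (win n c (32 * T'))).card * T' ^ 3 := by
    intro c
    calc ∑ t, hw P c (D t)
        ≤ ∑ t : Fin 4 → Fin T', ∑ q ∈ EW P (win n c (32 * T')),
            (if |imb P (D t) q - c| ≤ 3 then 1 else 0) := by
          apply sum_le_sum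
          intro t _
          rw [← card_filter]
          unfold hw
          apply card_le_card
          intro q hq
          rw [mem_filter] at hq ⊢
          exact ⟨hwin c t q hq.1 hq.2, hq.2⟩
      _ = ∑ q ∈ EW P (win n c (32 * T')), ∑ t : Fin 4 → Fin T',
            (if |imb P (D t) q - c| ≤ 3 then 1 else 0) := sum_comm
      _ ≤ ∑ q ∈ EW P (win n c (32 * T')), T' ^ 3 := by
          apply sum_le_sum
          intro q hq
          rw [← card_filter]
          unfold EW at hq
          exact hfew c q (mem_filter.mp hq).1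
      _ = _ := by rw [sum_const, smul_eq_mul]
  set E : ℕ := ∑ c ∈ K, (EW P (win n c (32 * T'))).card with hE
  have hsum : ∑ t, ∑ c ∈ K, hw P c (D t) ≤ E * T' ^ 3 := by
    rw [sum_comm, hE, sum_mul]
    exact sum_le_sum fun c _ => hsum1 c
  have hex : ∃ t, (∑ c ∈ K, hw P c (D t)) * T' ≤ E := by
    by_contra hcon
    push Not at hcon
    haveI : Nonempty (Fin T') := ⟨⟨0, hT⟩⟩
    have h1 : ∑ _t : Fin 4 → Fin T', E <
        ∑ t : Fin 4 → Fin T', (∑ c ∈ K, hw P c (D t)) * T' :=
      sum_lt_sum_of_nonempty univ_nonempty (fun t _ => hcon t)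
    rw [sum_const, card_univ, Fintype.card_fun, Fintype.card_fin, Fintype.card_fin, smul_eq_mul,
      ← sum_mul] at h1
    have h2 := Nat.mul_le_mul_right T' hsum
    have h3 : E * T' ^ 3 * T' = T' ^ 4 * E := by ring
    omega
  obtain ⟨t, ht⟩ := hex
  refine ⟨D t, ?_, hDle t, ht⟩
  rw [hDc, ← mul_sum]
  exact ⟨4 * ∑ i, (t i : ℕ), by ring⟩

theorem delete {P : Fin n → ℝ × ℝ} (hP : GP P) (K : Finset ℤ) {δ : ℝ} (h0 : 0 < δ)
    (h1 : δ ≤ 1) :
    ∃ D : Finset (Fin n), Even D.card ∧ (D.card : ℝ) ≤ δ * n ∧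
      ∑ c ∈ K, (hw P c D : ℝ) ≤ K.card * (936 * (n * δ ^ (-(1 / 3) : ℝ))) := by
  classical
  have hδ : 1 ≤ δ ^ (-(1 / 3) : ℝ) := Real.one_le_rpow_of_pos_of_le_one_of_nonpos h0 h1 (by norm_num)
  have hn0 : (0 : ℝ) ≤ n := Nat.cast_nonneg n
  rcases lt_or_ge n 64 with hn | hn
  · refine ⟨∅, by simp, by simp; positivity, ?_⟩
    rw [← nsmul_eq_mul]
    apply sum_le_card_nsmul
    intro c _
    have h2 : hw P c ∅ ≤ n * n := by
      unfold hw
      refine (card_filter_le _ _).trans ?_
      unfold T
      refine (card_filter_le _ _).trans ?_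
      simp
    have h3 : (hw P c ∅ : ℝ) ≤ n * n := by exact_mod_cast h2
    have h4 : (n : ℝ) ≤ 64 := by exact_mod_cast hn.le
    nlinarith [mul_le_mul_of_nonneg_left hδ hn0]
  · obtain ⟨C, hdis, hsz, hmiss⟩ := classes hP (by omega)
    set T' : ℕ := ⌊δ * n / 64⌋₊ + 1 with hT'
    have hT0 : 0 < T' := Nat.succ_pos _
    have hx0 : 0 ≤ δ * n / 64 := by positivity
    have hfl : (⌊δ * n / 64⌋₊ : ℝ) ≤ δ * n / 64 := Nat.floor_le hx0
    have hfl2 : ⌊δ * n / 64⌋₊ ≤ n / 64 := by
      have : (⌊δ * n / 64⌋₊ : ℝ) * 64 ≤ n := by nlinarith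
      have h' : ⌊δ * n / 64⌋₊ * 64 ≤ n := by exact_mod_cast this
      omega
    obtain ⟨D, hD1, hD2, hD3⟩ := avg K hdis hmiss hT0 (by
      intro i
      have := hsz i
      omega)
    refine ⟨D, hD1, ?_, ?_⟩
    · have h2 : (D.card : ℝ) ≤ 32 * ⌊δ * n / 64⌋₊ := by
        have : D.card ≤ 32 * ⌊δ * n / 64⌋₊ := by
          rw [hT'] at hD2
          simpa using hD2
        exact_mod_cast this
      nlinarith
    · have hTr : δ * n / 64 ≤ (T' : ℝ) := by
        rw [hT']
        push_cast
        exact (Nat.lt_floor_add_one _).le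
      have hT1 : (1 : ℝ) ≤ T' := by exact_mod_cast hT0
      have key : ∀ c : ℤ, ((EW P (win n c (32 * T'))).card : ℝ) ≤
          936 * (n * δ ^ (-(1 / 3) : ℝ)) * T' := by
        intro c
        have hW := win_card n c (32 * T')
        have hw1 := window hP (win n c (32 * T')) (K := n) (by
          intro k hk
          unfold win at hk
          have := (mem_filter.mp hk).1
          rw [mem_range] at this
          omega)
        have hWr : ((win n c (32 * T')).card : ℝ) ≤ 33 * T' := by
          have : (win n c (32 * T')).card ≤ 33 * T' := by omega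
          exact_mod_cast this
        have hn1 : (64 : ℝ) ≤ n := by exact_mod_cast hn
        set z : ℝ := ((n : ℝ) + 1) ^ (1 / 3 : ℝ) *
          ((win n c (32 * T')).card : ℝ) ^ (2 / 3 : ℝ) with hz
        have hz0 : 0 ≤ z := by positivity
        have hz3 : z ^ 3 ≤ 2 * n * (33 * T') ^ 2 := by
          rw [hz, mul_pow, ← Real.rpow_natCast, ← Real.rpow_mul (by positivity),
            ← Real.rpow_natCast ((_ : ℝ) ^ (2 / 3 : ℝ)), ← Real.rpow_mul (by positivity)]
          norm_num
          have e1 : (n : ℝ) + 1 ≤ 2 * n := by linarith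
          have e2 : ((win n c (32 * T')).card : ℝ) ^ 2 ≤ (33 * T') ^ 2 :=
            pow_le_pow_left₀ (by positivity) hWr 2
          calc ((n : ℝ) + 1) * ((win n c (32 * T')).card : ℝ) ^ 2 ≤ 2 * n * (33 * T') ^ 2 := by
                gcongr
            _ = _ := by ring
        have hy3 : (52 * (T' : ℝ) * δ ^ (-(1 / 3) : ℝ)) ^ 3 = 140608 * T' ^ 3 * δ⁻¹ := by
          rw [mul_pow, mul_pow, ← Real.rpow_natCast (δ ^ (-(1 / 3) : ℝ)), ← Real.rpow_mul h0.le,
            ← Real.rpow_neg_one]
          norm_num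
        have hle : z ≤ 52 * (T' : ℝ) * δ ^ (-(1 / 3) : ℝ) := by
          refine le_of_pow_le_pow_left₀ (n := 3) (by norm_num) (by positivity) ?_
          rw [hy3]
          refine hz3.trans ?_
          rw [← div_eq_mul_inv, le_div_iff₀ h0]
          have e3 : (0 : ℝ) ≤ (T' : ℝ) ^ 2 := by positivity
          nlinarith [mul_le_mul_of_nonneg_left hTr e3]
        refine hw1.trans ?_
        have := mul_le_mul_of_nonneg_left hle (by positivity : (0 : ℝ) ≤ 18 * n)
        refine this.trans (le_of_eq ?_)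
        ring
      have h5 : (∑ c ∈ K, (hw P c D : ℝ)) * T' ≤
          ∑ c ∈ K, ((EW P (win n c (32 * T'))).card : ℝ) := by
        exact_mod_cast hD3
      have h6 : ∑ c ∈ K, ((EW P (win n c (32 * T'))).card : ℝ) ≤
          K.card * (936 * (n * δ ^ (-(1 / 3) : ℝ)) * T') := by
        rw [← nsmul_eq_mul]
        exact sum_le_card_nsmul _ _ _ fun c _ => key c
      have h7 : (∑ c ∈ K, (hw P c D : ℝ)) * T' ≤
          (K.card * (936 * (n * δ ^ (-(1 / 3) : ℝ)))) * T' := by
        refine (h5.trans h6).trans (le_of_eq ?_)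
        ring
      exact le_of_mul_le_mul_right h7 (by linarith)

/-- number of survivors, and the points on the two sides of a pair -/
theorem card_compl_le {P : Fin n → ℝ × ℝ} (D : Finset (Fin n)) (q : Fin n × Fin n) :
    (lowSet P q \ D).card + (upSet P q \ D).card ≤ Dᶜ.card ∧
      Dᶜ.card ≤ (lowSet P q \ D).card + (upSet P q \ D).card + 2 := by
  classical
  have hd : Disjoint (lowSet P q \ D) (upSet P q \ D) :=
    (disj P q).mono sdiff_subset sdiff_subset
  constructor
  · rw [← card_union_of_disjoint hd]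
    apply card_le_card
    intro l hl
    rw [mem_union, mem_sdiff, mem_sdiff] at hl
    rw [mem_compl]
    rcases hl with hl | hl
    · exact hl.2
    · exact hl.2
  · have h1 : Dᶜ ⊆ ((lowSet P q \ D) ∪ (upSet P q \ D)) ∪ {q.1, q.2} := by
      intro l hl
      rw [mem_compl] at hl
      rw [mem_union, mem_union, mem_sdiff, mem_sdiff, mem_insert, mem_singleton]
      by_cases h : l ∈ lowSet P q
      · exact Or.inl (Or.inl ⟨h, hl⟩)
      · by_cases h' : l = q.1 ∨ l = q.2
        · exact Or.inr h'
        · refine Or.inl (Or.inr ⟨?_, hl⟩)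
          unfold upSet
          rw [mem_filter, mem_sdiff]
          push Not at h'
          exact ⟨⟨mem_univ _, h⟩, h'⟩
    have h2 := card_le_card h1
    have h3 := card_union_le ((lowSet P q \ D) ∪ (upSet P q \ D)) {q.1, q.2}
    have h4 : ({q.1, q.2} : Finset (Fin n)).card ≤ 2 := card_le_two
    rw [card_union_of_disjoint hd] at h3
    omega

theorem cnt_le_hw (P : Fin n → ℝ × ℝ) (D : Finset (Fin n)) {k : ℕ} {c : ℤ}
    (hk : (k : ℤ) = ((Dᶜ.card / 2 : ℕ) : ℤ) + c ∨ (k : ℤ) + 1 = ((Dᶜ.card / 2 : ℕ) : ℤ) + c) :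
    cnt P k D ≤ hw P (2 * c) D := by
  classical
  unfold cnt hw
  apply card_le_card
  intro q hq
  rw [mem_filter] at hq ⊢
  refine ⟨hq.1, ?_⟩
  obtain ⟨h1, h2⟩ := card_compl_le (P := P) D q
  unfold imb
  rw [abs_le]
  have h3 := hq.2
  omega

theorem hcnt_le_hw (P : Fin n → ℝ × ℝ) (D : Finset (Fin n)) : hcnt P D ≤ hw P 0 D := by
  classical
  unfold hcnt hw
  apply card_le_card
  intro q hq
  rw [mem_filter] at hq ⊢
  refine ⟨hq.1, ?_⟩
  unfold imb
  rw [abs_le]
  have h3 := hq.2
  omega

end Pool.Agent.V11122.Hv
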