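import Pool.Agent.V11122.Hv.Shift

/-! Random deletions: the expected number of pairs of given imbalance for the surviving points. -/

set_option autoImplicit false

namespace Pool.Agent.V11122.Hv

open Finset Pool.Agent.H189R2.Lev Pool.Agent.H189R2.Iid Pool.Agent.Y344.KD

variable {n : ℕ}

/-- a weight of the levels that is small and has a bounded sum -/
theorem weight_bound {P : Fin n → ℝ × ℝ} (hP : GP P) (hn : 0 < n) {r : ℝ} (h0 : 0 < r)
    (v : ℕ → ℝ) (hv0 : ∀ j ≤ n - 2, 0 ≤ v j)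
    (hv : ∀ j ≤ n - 2, v j ≤ 8 / Real.sqrt (r * n))
    (hs : ∑ j ∈ range (n - 2 + 1), v j ≤ 2) :
    ∑ q ∈ T P, v (lev P q) ≤ 240 * ((n : ℝ) ^ (7 / 6 : ℝ) * r ^ (-(1 / 6) : ℝ)) := by
  classical
  have hn0 : (0 : ℝ) < n := by exact_mod_cast hn
  have hrn : 0 < r * n := by positivity
  set w : ℕ → ℝ := fun j => if j ≤ n - 2 then v j else 0 with hw
  have hM : 0 < 8 / Real.sqrt (r * n) := div_pos (by norm_num) (Real.sqrt_pos.mpr hrn)
  have key := sum_below hP (w := w) (M := 8 / Real.sqrt (r * n)) (J := n + 1) (by omega) hM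
    (fun j _ => by
      simp only [hw]
      split_ifs with h
      · exact hv0 j h
      · exact le_rfl)
    (fun j _ => by
      simp only [hw]
      split_ifs with h
      · exact hv j h
      · exact hM.le)
    (by
      have hsub : range (n - 2 + 1) ⊆ range (n + 1) := range_subset_range.mpr (by omega)
      rw [← sum_subset hsub]
      · refine le_trans (le_of_eq ?_) hs
        apply sum_congr rfl
        intro j hj
        rw [mem_range] at hj
        simp only [hw]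
        rw [if_pos (by omega)]
      · intro j _ hj
        rw [mem_range] at hj
        simp only [hw]
        rw [if_neg (by omega)])
  rw [EW_all P le_rfl] at key
  have e : ∑ q ∈ T P, w (lev P q) = ∑ q ∈ T P, v (lev P q) := by
    apply sum_congr rfl
    intro q hq
    simp only [hw]
    rw [if_pos (card_up hq).2.1]
  rw [e] at key
  refine key.trans ?_
  have a1 : (((n + 1 : ℕ) : ℝ)) ^ (1 / 3 : ℝ) ≤ 2 ^ (1 / 3 : ℝ) * (n : ℝ) ^ (1 / 3 : ℝ) := by
    rw [← Real.mul_rpow (by norm_num) hn0.le]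
    apply Real.rpow_le_rpow (by positivity) _ (by norm_num)
    have : (1 : ℝ) ≤ n := by exact_mod_cast hn
    push_cast
    linarith
  have a2 : (8 / Real.sqrt (r * n)) ^ (1 / 3 : ℝ) = 2 * (r ^ (-(1 / 6) : ℝ) *
      (n : ℝ) ^ (-(1 / 6) : ℝ)) := by
    rw [Real.div_rpow (by norm_num) (Real.sqrt_nonneg _), Real.sqrt_eq_rpow,
      ← Real.rpow_mul hrn.le, ← Real.mul_rpow h0.le hn0.le, Real.rpow_neg hrn.le]
    have e8 : (8 : ℝ) ^ (1 / 3 : ℝ) = 2 := by
      rw [show (8 : ℝ) = 2 ^ (3 : ℝ) by norm_num, ← Real.rpow_mul (by norm_num)]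
      norm_num
    rw [e8, show (1 / 2 * (1 / 3) : ℝ) = 1 / 6 by norm_num]
    rfl
  have a3 : (2 : ℝ) ^ (1 / 3 : ℝ) ≤ 4 / 3 := by
    have h27 : ((4 : ℝ) / 3) = (((4 : ℝ) / 3) ^ (3 : ℝ)) ^ (1 / 3 : ℝ) := by
      rw [← Real.rpow_mul (by norm_num)]
      norm_num
    rw [h27]
    apply Real.rpow_le_rpow (by norm_num) _ (by norm_num)
    norm_num
  have a4 : (n : ℝ) ^ (7 / 6 : ℝ) = n * ((n : ℝ) ^ (1 / 3 : ℝ) * (n : ℝ) ^ (-(1 / 6) : ℝ)) := by
    rw [← Real.rpow_add hn0, show (7 / 6 : ℝ) = 1 + (1 / 3 + -(1 / 6)) by norm_num,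
      Real.rpow_add hn0, Real.rpow_one]
  rw [a2, a4]
  have p1 : 0 ≤ (n : ℝ) ^ (1 / 3 : ℝ) := by positivity
  have p2 : 0 ≤ (n : ℝ) ^ (-(1 / 6) : ℝ) := by positivity
  have p3 : 0 ≤ r ^ (-(1 / 6) : ℝ) := by positivity
  calc 90 * (n : ℝ) * ((((n + 1 : ℕ) : ℝ)) ^ (1 / 3 : ℝ) *
        (2 * (r ^ (-(1 / 6) : ℝ) * (n : ℝ) ^ (-(1 / 6) : ℝ))))
      ≤ 90 * (n : ℝ) * ((4 / 3 * (n : ℝ) ^ (1 / 3 : ℝ)) *
        (2 * (r ^ (-(1 / 6) : ℝ) * (n : ℝ) ^ (-(1 / 6) : ℝ)))) := by
        apply mul_le_mul_of_nonneg_left _ (by positivity)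
        apply mul_le_mul_of_nonneg_right _ (by positivity)
        exact a1.trans (mul_le_mul_of_nonneg_right a3 p1)
    _ = _ := by ring

open scoped Classical in
/-- the number of pairs of imbalance `c` -/
noncomputable def hz (P : Fin n → ℝ × ℝ) (c : ℤ) (D : Finset (Fin n)) : ℕ :=
  ((T P).filter (fun q => imb P D q = c)).card

/-- the probability of imbalance `c` for a pair of level `j` -/
noncomputable def pz (n : ℕ) (c : ℤ) (r : ℝ) (j : ℕ) : ℝ :=
  if 0 ≤ c then pc c.toNat j (n - 2 - j) r else pc (-c).toNat (n - 2 - j) j r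

theorem exp_hz (P : Fin n → ℝ × ℝ) (c : ℤ) (r : ℝ) :
    ∑ D : Finset (Fin n), wt r D * hz P c D = ∑ q ∈ T P, pz n c r (lev P q) := by
  classical
  have h1 : ∀ D : Finset (Fin n), wt r D * (hz P c D : ℝ) =
      ∑ q ∈ T P, (if imb P D q = c then wt r D else 0) := by
    intro D
    unfold hz
    rw [← sum_filter, sum_const, nsmul_eq_mul, mul_comm]
  rw [sum_congr rfl (fun D _ => h1 D), sum_comm]
  apply sum_congr rfl
  intro q hq
  obtain ⟨u1, u2, u3⟩ := card_up hq
  unfold pz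
  by_cases hc : 0 ≤ c
  · rw [if_pos hc]
    have h2 := joint_c c.toNat (disj P q) r
    rw [u1, ← lev_eq] at h2
    rw [← h2]
    apply sum_congr rfl
    intro D _
    have : imb P D q = c ↔ (lowSet P q \ D).card = (upSet P q \ D).card + c.toNat := by
      unfold imb
      omega
    simp only [this]
  · rw [if_neg hc]
    have h2 := joint_c (-c).toNat (disj P q).symm r
    rw [u1, ← lev_eq] at h2
    rw [← h2]
    apply sum_congr rfl
    intro D _
    have : imb P D q = c ↔ (upSet P q \ D).card = (lowSet P q \ D).card + (-c).toNat := by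
      unfold imb
      omega
    simp only [this]

theorem hz_bound {P : Fin n → ℝ × ℝ} (hP : GP P) (hn : 0 < n) (c : ℤ) {r : ℝ} (h0 : 0 < r)
    (h1 : r ≤ 1 / 2) :
    ∑ D : Finset (Fin n), wt r D * hz P c D ≤
      240 * ((n : ℝ) ^ (7 / 6 : ℝ) * r ^ (-(1 / 6) : ℝ)) := by
  rw [exp_hz]
  have h1' : r ≤ 1 := by linarith
  apply weight_bound hP hn h0
  · intro j _
    unfold pz
    split_ifs
    · exact pc_nonneg h0.le h1' _ _ _
    · exact pc_nonneg h0.le h1' _ _ _
  · intro j hj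
    unfold pz
    split_ifs
    · exact pc_sup h0 h1 hn (by omega)
    · exact pc_sup h0 h1 hn (by omega)
  · unfold pz
    by_cases hc : 0 ≤ c
    · simp only [if_pos hc]
      exact pc_sum h0.le h1 _ _
    · simp only [if_neg hc]
      rw [← sum_range_reflect]
      refine le_trans (le_of_eq ?_) (pc_sum h0.le h1 (-c).toNat (n - 2))
      apply sum_congr rfl
      intro j hj
      rw [mem_range] at hj
      congr 1
      omega

theorem hw_le_hz (P : Fin n → ℝ × ℝ) (c : ℤ) (D : Finset (Fin n)) :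
    hw P c D ≤ ∑ d ∈ Finset.Icc (c - 3) (c + 3), hz P d D := by
  classical
  unfold hw hz
  rw [← card_biUnion]
  · apply card_le_card
    intro q hq
    rw [mem_filter] at hq
    rw [mem_biUnion]
    refine ⟨imb P D q, ?_, mem_filter.mpr ⟨hq.1, rfl⟩⟩
    have := hq.2
    rw [abs_le] at this
    rw [Finset.mem_Icc]
    omega
  · intro i _ j _ hij
    change Disjoint _ _
    rw [disjoint_left]
    intro q h1 h2
    rw [mem_filter] at h1 h2
    exact hij (h1.2.symm.trans h2.2)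

theorem hw_bound {P : Fin n → ℝ × ℝ} (hP : GP P) (hn : 0 < n) (c : ℤ) {r : ℝ} (h0 : 0 < r)
    (h1 : r ≤ 1 / 2) :
    ∑ D : Finset (Fin n), wt r D * hw P c D ≤
      1680 * ((n : ℝ) ^ (7 / 6 : ℝ) * r ^ (-(1 / 6) : ℝ)) := by
  have h1' : r ≤ 1 := by linarith
  calc ∑ D : Finset (Fin n), wt r D * hw P c D
      ≤ ∑ D : Finset (Fin n), ∑ d ∈ Finset.Icc (c - 3) (c + 3), wt r D * hz P d D := by
        apply sum_le_sum
        intro D _
        rw [← mul_sum]
        apply mul_le_mul_of_nonneg_left _ (wt_nonneg h0.le h1' D)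
        exact_mod_cast hw_le_hz P c D
    _ = ∑ d ∈ Finset.Icc (c - 3) (c + 3), ∑ D : Finset (Fin n), wt r D * hz P d D := sum_comm
    _ ≤ ∑ _d ∈ Finset.Icc (c - 3) (c + 3),
          240 * ((n : ℝ) ^ (7 / 6 : ℝ) * r ^ (-(1 / 6) : ℝ)) :=
        sum_le_sum fun d _ => hz_bound hP hn d h0 h1
    _ = _ := by
        rw [sum_const, Int.card_Icc, nsmul_eq_mul]
        have : (c + 3 + 1 - (c - 3)).toNat = 7 := by omega
        rw [this]
        push_cast
        ring

end Pool.Agent.V11122.Hv
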